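import Mathlib
import Pool.Agent.R182.TernarySmall

set_option autoImplicit false

/-!
# Double covers of `[3]^d`: a sharper lower bound, and Q2 for `n = 3`, `d ≤ 5`
-/

namespace Pool.Agent.Results.MP_7489fb_co.ALowerTernary

open Pool.Agent.Results.MP_7489fb_co.AsymptoticUpperBound
open Pool.Agent.Results.MP_7489fb_co.ATwoSided
open Pool.Agent.Results.MP_7489fb_co.LowerAllN
open Pool.Agent.Results.MP_7489fb_co.DistinctMembers
open Pool.Agent.R182.TernarySmall

lemma wc {d : ℕ} {F : Multiset (Box 3 d)} (hF : IsDoubleCover 3 d F) : WC 3 d F 0 where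
  pN := hF.1
  pM := fun B hB => absurd hB (Multiset.notMem_zero B)
  c := fun x => by
    have h := hF.2 x
    unfold cov
    rw [Multiset.countP_zero]
    omega

lemma unique {d : ℕ} (m : ℕ → ℝ) (h1 : m d = 1)
    (h2 : ∀ p, p < d → 2 * ((p : ℝ) + 1) * m p = 3 + ((p : ℝ) - 2) * m (p + 1)) :
    ∀ j, j ≤ d → m (d - j) = mom d (d - j) := by
  intro j
  induction j with
  | zero => intro _; rw [Nat.sub_zero, h1, mom_top]
  | succ j ih =>
    intro hj
    have h3 := ih (by omega)
    have h4 := h2 (d - (j + 1)) (by omega)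
    have h5 := mom_rec (d := d) (k := d - j) (by omega) (by omega)
    have h6 : d - (j + 1) + 1 = d - j := by omega
    have h7 : d - j - 1 = d - (j + 1) := by omega
    rw [h6, h3] at h4
    rw [h7] at h5
    have h8 : ((d - j : ℕ) : ℝ) = ((d - (j + 1) : ℕ) : ℝ) + 1 := by
      rw [← h6]
      push_cast
      ring
    rw [h8] at h5
    have h9 : (0 : ℝ) < 2 * (((d - (j + 1) : ℕ) : ℝ) + 1) := by positivity
    have h10 : 2 * (((d - (j + 1) : ℕ) : ℝ) + 1) * m (d - (j + 1)) =
        2 * (((d - (j + 1) : ℕ) : ℝ) + 1) * mom d (d - (j + 1)) := by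
      rw [h4, h5]
      ring
    exact mul_left_cancel₀ h9.ne' h10

/-- lower bound on the moments -/
lemma mom_ge {d : ℕ} (hd : 2 ≤ d) : ∀ p, p ≤ d → 3 / ((p : ℝ) + 5) ≤ mom d p := by
  have big : ∀ j, j + 2 ≤ d → 3 / (((d - j : ℕ) : ℝ) + 5) ≤ mom d (d - j) := by
    intro j
    induction j with
    | zero =>
      intro _
      rw [Nat.sub_zero, mom_top, div_le_one (by positivity)]
      have : (0 : ℝ) ≤ d := Nat.cast_nonneg d
      linarith
    | succ j ih =>
      intro hj
      have h1 := ih (by omega)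
      obtain ⟨p, hp⟩ : ∃ p, d - (j + 1) = p := ⟨_, rfl⟩
      have h2 : d - j = p + 1 := by omega
      rw [h2] at h1
      rw [hp]
      have h3 := mom_rec (d := d) (k := p + 1) (by omega) (by omega)
      rw [Nat.add_sub_cancel] at h3
      have h4 : (2 : ℝ) ≤ p := by
        have : 2 ≤ p := by omega
        exact_mod_cast this
      push_cast at h1 h3
      have h5 : 3 * (p + 2) / ((p + 1 : ℝ) * (p + 6)) ≤ mom d p := by
        have h6 : ((p : ℝ) + 1 - 3) * (3 / ((p : ℝ) + 1 + 5)) ≤
            ((p : ℝ) + 1 - 3) * mom d (p + 1) :=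
          mul_le_mul_of_nonneg_left h1 (by linarith)
        have h7 : 3 + ((p : ℝ) + 1 - 3) * (3 / ((p : ℝ) + 1 + 5)) =
            2 * (p + 1) * (3 * (p + 2) / ((p + 1 : ℝ) * (p + 6))) := by
          have : (p : ℝ) + 1 + 5 ≠ 0 := by positivity
          have : (p : ℝ) + 6 ≠ 0 := by positivity
          have : (p : ℝ) + 1 ≠ 0 := by positivity
          rw [show (p : ℝ) + 1 + 5 = p + 6 by ring]
          field_simp
          ring
        have h8 : (0 : ℝ) < 2 * (p + 1) := by positivity
        refine le_of_mul_le_mul_left ?_ h8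
        rw [← h7]
        linarith
      refine le_trans ?_ h5
      rw [div_le_div_iff₀ (by positivity) (by positivity)]
      nlinarith
  intro p hp
  rcases Nat.lt_or_ge p 2 with h | h
  · have key : mom d 1 ≥ 1 / 2 ∧ mom d 0 ≥ 3 / 5 := by
      rcases Nat.lt_or_ge d 3 with h3 | h3
      · obtain rfl : d = 2 := by omega
        have e : mom 2 2 = 1 := mom_top
        have a := mom_rec (d := 2) (k := 1) le_rfl (by norm_num)
        have b := mom_rec (d := 2) (k := 2) (by norm_num) le_rfl
        norm_num at a b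
        constructor <;> linarith
      · have a := mom_rec (d := d) (k := 1) le_rfl (by omega)
        have b := mom_rec (d := d) (k := 2) (by norm_num) (by omega)
        have c := mom_rec (d := d) (k := 3) (by norm_num) h3
        norm_num at a b c
        constructor <;> linarith
    interval_cases p
    · have := key.2
      norm_num
      linarith
    · have := key.1
      norm_num
      linarith
  · have h1 := big (d - p) (by omega)
    have h2 : d - (d - p) = p := by omega
    rw [h2] at h1
    exact h1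

lemma sum_mul_choose (d : ℕ) :
    2 * ∑ p ∈ Finset.range (d + 1), (d.choose p : ℝ) * p = d * 2 ^ d := by
  cases d with
  | zero => simp
  | succ e =>
    rw [Finset.sum_range_succ']
    have h1 : ∀ p ∈ Finset.range (e + 1), (((e + 1).choose (p + 1) : ℕ) : ℝ) * ((p + 1 : ℕ) : ℝ) =
        ((e : ℝ) + 1) * (e.choose p : ℝ) := by
      intro p _
      have := Nat.add_one_mul_choose_eq e p
      have h2 : (((e + 1) * e.choose p : ℕ) : ℝ) = (((e + 1).choose (p + 1) * (p + 1) : ℕ) : ℝ) := by
        rw [this]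
      push_cast at h2 ⊢
      linarith
    rw [Finset.sum_congr rfl h1, ← Finset.mul_sum]
    have h3 := Nat.sum_range_choose e
    have h4 : (∑ m ∈ Finset.range (e + 1), (e.choose m : ℝ)) = 2 ^ e := by
      exact_mod_cast h3
    rw [h4]
    push_cast
    ring

lemma sum_ge {d : ℕ} (hd : 2 ≤ d) :
    6 * 2 ^ d ≤ ((d : ℝ) + 10) * ∑ p ∈ Finset.range (d + 1), (d.choose p : ℝ) * mom d p := by
  have hd' : (2 : ℝ) ≤ d := by exact_mod_cast hd
  have h1 : ∀ p ∈ Finset.range (d + 1),
      (d.choose p : ℝ) * (12 * ((d : ℝ) + 10) - 12 * (p + 5)) / ((d : ℝ) + 10) ^ 2 ≤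
        (d.choose p : ℝ) * mom d p := by
    intro p hp
    have hpd : p ≤ d := by
      have := Finset.mem_range.1 hp
      omega
    rw [mul_div_assoc]
    apply mul_le_mul_of_nonneg_left _ (Nat.cast_nonneg _)
    refine le_trans ?_ (mom_ge hd p hpd)
    have h0 : (0 : ℝ) ≤ p := Nat.cast_nonneg p
    rw [div_le_div_iff₀ (by positivity) (by positivity)]
    nlinarith [sq_nonneg ((d : ℝ) + 10 - 2 * (p + 5))]
  have h2 := Finset.sum_le_sum h1
  rw [← Finset.sum_div] at h2
  have h3 : ∑ p ∈ Finset.range (d + 1), (d.choose p : ℝ) *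
      (12 * ((d : ℝ) + 10) - 12 * (p + 5)) = 6 * ((d : ℝ) + 10) * 2 ^ d := by
    have h4 : ∀ p ∈ Finset.range (d + 1), (d.choose p : ℝ) *
        (12 * ((d : ℝ) + 10) - 12 * (p + 5)) =
        (12 * (d : ℝ) + 60) * (d.choose p : ℝ) - 12 * ((d.choose p : ℝ) * p) := by
      intro p _
      ring
    rw [Finset.sum_congr rfl h4, Finset.sum_sub_distrib, ← Finset.mul_sum, ← Finset.mul_sum]
    have h5 := sum_mul_choose d
    have h6 : (∑ m ∈ Finset.range (d + 1), (d.choose m : ℝ)) = 2 ^ d := by
      exact_mod_cast Nat.sum_range_choose d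
    rw [h6]
    linarith
  rw [h3, div_le_iff₀ (by positivity)] at h2
  have h7 : (0 : ℝ) < (d : ℝ) + 10 := by positivity
  refine le_of_mul_le_mul_left ?_ h7
  linarith

lemma bound_one {F : Multiset (Box 3 1)} (hF : IsDoubleCover 3 1 F) : 3 ≤ Multiset.card F := by
  have h := main le_rfl (wc hF)
  have e : mom 1 1 = 1 := mom_top
  have a := mom_rec (d := 1) (k := 1) le_rfl le_rfl
  norm_num at a
  simp only [Finset.sum_range_succ, Finset.sum_range_zero, zero_add] at h
  norm_num [Nat.choose] at h
  by_contra hc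
  have hc' : Multiset.card F ≤ 2 := by omega
  have : (Multiset.card F : ℝ) ≤ 2 := by exact_mod_cast hc'
  linarith

lemma bound_two {F : Multiset (Box 3 2)} (hF : IsDoubleCover 3 2 F) : 6 ≤ Multiset.card F := by
  have h := main (by norm_num) (wc hF)
  have e : mom 2 2 = 1 := mom_top
  have a := mom_rec (d := 2) (k := 1) le_rfl (by norm_num)
  have b := mom_rec (d := 2) (k := 2) (by norm_num) le_rfl
  norm_num at a b
  simp only [Finset.sum_range_succ, Finset.sum_range_zero, zero_add] at h
  norm_num [Nat.choose] at h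
  by_contra hc
  have hc' : Multiset.card F ≤ 5 := by omega
  have : (Multiset.card F : ℝ) ≤ 5 := by exact_mod_cast hc'
  linarith

lemma bound_three {F : Multiset (Box 3 3)} (hF : IsDoubleCover 3 3 F) :
    11 ≤ Multiset.card F := by
  have h := main (by norm_num) (wc hF)
  have e : mom 3 3 = 1 := mom_top
  have a := mom_rec (d := 3) (k := 1) le_rfl (by norm_num)
  have b := mom_rec (d := 3) (k := 2) (by norm_num) (by norm_num)
  have c := mom_rec (d := 3) (k := 3) (by norm_num) le_rfl
  norm_num at a b c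
  simp only [Finset.sum_range_succ, Finset.sum_range_zero, zero_add] at h
  norm_num [Nat.choose] at h
  by_contra hc
  have hc' : Multiset.card F ≤ 10 := by omega
  have : (Multiset.card F : ℝ) ≤ 10 := by exact_mod_cast hc'
  linarith

lemma bound_four {F : Multiset (Box 3 4)} (hF : IsDoubleCover 3 4 F) :
    19 ≤ Multiset.card F := by
  have h := main (by norm_num) (wc hF)
  have e : mom 4 4 = 1 := mom_top
  have a := mom_rec (d := 4) (k := 1) le_rfl (by norm_num)
  have b := mom_rec (d := 4) (k := 2) (by norm_num) (by norm_num)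
  have c := mom_rec (d := 4) (k := 3) (by norm_num) (by norm_num)
  have c4 := mom_rec (d := 4) (k := 4) (by norm_num) le_rfl
  norm_num at a b c c4
  simp only [Finset.sum_range_succ, Finset.sum_range_zero, zero_add] at h
  norm_num [Nat.choose] at h
  by_contra hc
  have hc' : Multiset.card F ≤ 18 := by omega
  have : (Multiset.card F : ℝ) ≤ 18 := by exact_mod_cast hc'
  linarith

lemma bound_five {F : Multiset (Box 3 5)} (hF : IsDoubleCover 3 5 F) :
    34 ≤ Multiset.card F := by
  have h := main (by norm_num) (wc hF)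
  have e : mom 5 5 = 1 := mom_top
  have a := mom_rec (d := 5) (k := 1) le_rfl (by norm_num)
  have b := mom_rec (d := 5) (k := 2) (by norm_num) (by norm_num)
  have c := mom_rec (d := 5) (k := 3) (by norm_num) (by norm_num)
  have c4 := mom_rec (d := 5) (k := 4) (by norm_num) (by norm_num)
  have c5 := mom_rec (d := 5) (k := 5) (by norm_num) le_rfl
  norm_num at a b c c4 c5
  simp only [Finset.sum_range_succ, Finset.sum_range_zero, zero_add] at h
  norm_num [Nat.choose] at h
  by_contra hc
  have hc' : Multiset.card F ≤ 33 := by omega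
  have : (Multiset.card F : ℝ) ≤ 33 := by exact_mod_cast hc'
  linarith

lemma bound_six {F : Multiset (Box 3 6)} (hF : IsDoubleCover 3 6 F) :
    62 ≤ Multiset.card F := by
  have h := main (by norm_num) (wc hF)
  have e : mom 6 6 = 1 := mom_top
  have a := mom_rec (d := 6) (k := 1) le_rfl (by norm_num)
  have b := mom_rec (d := 6) (k := 2) (by norm_num) (by norm_num)
  have c := mom_rec (d := 6) (k := 3) (by norm_num) (by norm_num)
  have c4 := mom_rec (d := 6) (k := 4) (by norm_num) (by norm_num)
  have c5 := mom_rec (d := 6) (k := 5) (by norm_num) (by norm_num)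
  have c6 := mom_rec (d := 6) (k := 6) (by norm_num) le_rfl
  norm_num at a b c c4 c5 c6
  simp only [Finset.sum_range_succ, Finset.sum_range_zero, zero_add] at h
  norm_num [Nat.choose] at h
  by_contra hc
  have hc' : Multiset.card F ≤ 61 := by omega
  have : (Multiset.card F : ℝ) ≤ 61 := by exact_mod_cast hc'
  linarith

lemma general {d : ℕ} (hd : 1 ≤ d) {F : Multiset (Box 3 d)} (hF : IsDoubleCover 3 d F) :
    12 * 2 ^ d ≤ (d + 10) * Multiset.card F := by
  rcases Nat.lt_or_ge d 2 with h | h
  · obtain rfl : d = 1 := by omega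
    have := bound_one hF
    omega
  · have h1 := main hd (wc hF)
    have h2 := sum_ge h
    have h3 : (0 : ℝ) < (d : ℝ) + 10 := by positivity
    have h4 : (12 : ℝ) * 2 ^ d ≤ (d + 10) * Multiset.card F := by
      have := mul_le_mul_of_nonneg_left h1 h3.le
      linarith
    exact_mod_cast h4

/-- **Double covers of `[3]^d`.**
* If `m_d = 1` and `2 p m_{p-1} = 3 + (p - 3) m_p` for `1 ≤ p ≤ d` (this defines `m_0, …, m_d`),
  every double cover of `[3]^d` by proper boxes has at least `2 ∑_p (d choose p) m_p` members;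
* it has at least `12 * 2^d / (d + 10)` members, so `g(3,d) ≥ 12 * 2^d / (d + 10)`;
* `g(3,1) = 3`, `g(3,2) = 6`, `g(3,3) = 11`, `g(3,4) ≥ 19`, `g(3,5) ≥ 34`, `g(3,6) ≥ 62`;
* Q2 holds for `n = 3` and `d ≤ 5`. -/
theorem result :
    (∀ (d : ℕ) (m : ℕ → ℝ), 1 ≤ d → m d = 1 →
      (∀ p, p < d → 2 * ((p : ℝ) + 1) * m p = 3 + ((p : ℝ) - 2) * m (p + 1)) →
      ∀ F : Multiset (Box 3 d), IsDoubleCover 3 d F →
        2 * ∑ p ∈ Finset.range (d + 1), (d.choose p : ℝ) * m p ≤ (Multiset.card F : ℝ)) ∧
    (∀ (d : ℕ) (F : Multiset (Box 3 d)), 1 ≤ d → IsDoubleCover 3 d F →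
      12 * 2 ^ d ≤ (d + 10) * Multiset.card F) ∧
    (∀ d : ℕ, 1 ≤ d → 12 * 2 ^ d ≤ (d + 10) * g 3 d) ∧
    (g 3 1 = 3 ∧ g 3 2 = 6 ∧ g 3 3 = 11 ∧ 19 ≤ g 3 4 ∧ 34 ≤ g 3 5 ∧ 62 ≤ g 3 6) ∧
    (∀ (d : ℕ) (F : Multiset (Box 3 d)), 1 ≤ d → d ≤ 5 → IsDoubleCover 3 d F →
      2 ^ d ≤ Multiset.card F) := by
  have up := (AsymptoticUpperBound.result 3 le_rfl).1
  have u1 : g 3 1 ≤ 3 := by
    have := up 1 0
    norm_num at this
    exact this
  have u2 : g 3 2 ≤ 6 := by
    have := up 1 1
    norm_num at this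
    exact this
  have u3 : g 3 3 ≤ 11 := by
    have := up 2 1
    norm_num at this
    omega
  refine ⟨?_, fun d F hd hF => general hd hF, ?_, ⟨?_, ?_, ?_, ?_, ?_, ?_⟩, ?_⟩
  · intro d m hd h1 h2 F hF
    refine le_trans (le_of_eq ?_) (main hd (wc hF))
    congr 1
    apply Finset.sum_congr rfl
    intro p hp
    have h3 := unique m h1 h2 (d - p) (by omega)
    have h4 : d - (d - p) = p := by
      have := Finset.mem_range.1 hp
      omega
    rw [h4] at h3
    rw [h3]
  · intro d hd
    obtain ⟨F, hF, hc⟩ := exists_min 3 le_rfl d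
    rw [← hc]
    exact general hd hF
  · obtain ⟨F, hF, hc⟩ := exists_min 3 le_rfl 1
    have := bound_one hF
    omega
  · obtain ⟨F, hF, hc⟩ := exists_min 3 le_rfl 2
    have := bound_two hF
    omega
  · obtain ⟨F, hF, hc⟩ := exists_min 3 le_rfl 3
    have := bound_three hF
    omega
  · obtain ⟨F, hF, hc⟩ := exists_min 3 le_rfl 4
    rw [← hc]
    exact bound_four hF
  · obtain ⟨F, hF, hc⟩ := exists_min 3 le_rfl 5
    rw [← hc]
    exact bound_five hF
  · obtain ⟨F, hF, hc⟩ := exists_min 3 le_rfl 6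
    rw [← hc]
    exact bound_six hF
  · intro d F h1 h5 hF
    interval_cases d
    · have := bound_one hF
      omega
    · have := bound_two hF
      omega
    · have := bound_three hF
      omega
    · have := bound_four hF
      omega
    · have := bound_five hF
      omega

end Pool.Agent.Results.MP_7489fb_co.ALowerTernary
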